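import Pool.Agent.H64.FR.Fin
import Pool.Agent.H64.FR.CF

/-!
`MP_490a5a_co`: for every `d ≥ 4` the deletion constants `μ({K_r}, Γ_d)`, `r ≥ 5`, and the coefficient of
fragmentability `c_f(Γ_d)` are strictly smaller than `μ({K_4}, Γ_d)` (for `d = 3` they are all equal), with explicit bounds
below the Edwards-Farr bound `(d - 2) / (d + 1) = 1 - 3 / (d + 1)`.

`muSet r d` and `cfSet d` are verbatim the two sets in the frozen statement `S08551`.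
-/

set_option autoImplicit false

namespace Pool.Agent.Results.MP_490a5a_co.AboveFour

open Pool.Agent.H64.FR

/-- For all `d ≥ 4`: `c_f(Γ_d) ≤ 1 - 25 / (8 (d + 1))`, and for all `r ≥ 5`
`μ(K_r, Γ_d) ≤ 1 - (25 - 5 / (r + 1)) / (8 (d + 1)) < (d - 2) / (d + 1) ≤ μ(K_4, Γ_d)`;
in particular `μ(K_4, Γ_d)` exceeds `c_f(Γ_d)` and every `μ(K_r, Γ_d)`, `r ≥ 5`. -/
theorem result : ∀ d : ℕ, 4 ≤ d →
    sInf (cfSet d) ≤ 1 - 25 / (8 * ((d : ℝ) + 1)) ∧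
    (∀ r : ℕ, 5 ≤ r →
      sInf (muSet r d) ≤ 1 - (25 - 5 / ((r : ℝ) + 1)) / (8 * ((d : ℝ) + 1))) ∧
    ((d : ℝ) - 2) / ((d : ℝ) + 1) ≤ sInf (muSet 4 d) ∧
    sInf (cfSet d) < sInf (muSet 4 d) ∧
    (∀ r : ℕ, 5 ≤ r → sInf (muSet r d) < sInf (muSet 4 d)) := by
  intro d hd
  have h2 : ((d : ℝ) - 2) / ((d : ℝ) + 1) ≤ sInf (muSet 4 d) := (main le_rfl hd).2.1
  refine ⟨cf_le hd, fun r hr => (main hr hd).1, h2, ?_, fun r hr => (main hr hd).2.2⟩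
  have h1 := cf_le hd
  have hd' : (4 : ℝ) ≤ d := by exact_mod_cast hd
  have h3 : (0 : ℝ) < 8 * ((d : ℝ) + 1) := by positivity
  have h5 : ((d : ℝ) - 2) / ((d : ℝ) + 1) = 1 - 24 / (8 * ((d : ℝ) + 1)) := by
    field_simp; ring
  have h6 : 24 / (8 * ((d : ℝ) + 1)) < 25 / (8 * ((d : ℝ) + 1)) := by
    apply div_lt_div_of_pos_right _ h3
    norm_num
  linarith

end Pool.Agent.Results.MP_490a5a_co.AboveFour
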