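import Pool.Agent.H67.CF.Fu
import Pool.Agent.H67.CF.Fl

/-!
`MP_490a5a_co`, restricted to claw-free graphs: for every `d ≥ 2` both constants are equal to
`1 - 1/(⌊d/2⌋+1) - 1/(⌊(d+1)/2⌋+1)`, and the deletion constants are stationary from `r = d²(d+1)²+2` on.

`muSet P r d` and `cfSet P d` are the two sets in the frozen statement `S08551` with the additional requirement that the graph
belongs to the class `P`.
-/

set_option autoImplicit false

namespace Pool.Agent.Results.MP_490a5a_co.ClawFree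

open Pool.Agent.H67.CF

/-- For all `d ≥ 2`, for the class of claw-free graphs, and more generally for every class `P` of claw-free graphs which contains
all line graphs of bipartite graphs: `c_f(P ∩ Γ_d) = μ(K_r, P ∩ Γ_d) = 1 - 1/(⌊d/2⌋+1) - 1/(⌊(d+1)/2⌋+1)` for all
`r ≥ d²(d+1)²+2`. -/
theorem result : ∀ d : ℕ, 2 ≤ d →
    (sInf (cfSet (fun _ G => ClawFree G) d) =
        1 - (1 / (((d / 2 : ℕ) : ℝ) + 1) + 1 / ((((d + 1) / 2 : ℕ) : ℝ) + 1)) ∧
      ∀ r : ℕ, d ^ 2 * (d + 1) ^ 2 + 2 ≤ r →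
        sInf (muSet (fun _ G => ClawFree G) r d) = sInf (cfSet (fun _ G => ClawFree G) d)) ∧
    ∀ P : (n : ℕ) → SimpleGraph (Fin n) → Prop, (∀ n G, P n G → ClawFree G) → HasBipLine P →
      sInf (cfSet P d) =
        1 - (1 / (((d / 2 : ℕ) : ℝ) + 1) + 1 / ((((d + 1) / 2 : ℕ) : ℝ) + 1)) ∧
      ∀ r : ℕ, d ^ 2 * (d + 1) ^ 2 + 2 ≤ r →
        sInf (muSet P r d) = sInf (cfSet P d) := by
  intro d hd
  have main : ∀ P : (n : ℕ) → SimpleGraph (Fin n) → Prop, (∀ n G, P n G → ClawFree G) →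
      HasBipLine P →
      sInf (cfSet P d) =
        1 - (1 / (((d / 2 : ℕ) : ℝ) + 1) + 1 / ((((d + 1) / 2 : ℕ) : ℝ) + 1)) ∧
      ∀ r : ℕ, d ^ 2 * (d + 1) ^ 2 + 2 ≤ r →
        sInf (muSet P r d) = sInf (cfSet P d) := by
    intro P h1 h2
    have hcf : sInf (cfSet P d) = 1 - wt d := by
      apply le_antisymm
      · exact csInf_le ⟨1 - wt d, fun c hc => cf_low h2 hd hc⟩ (cf_mem h1 hd)
      · exact le_csInf ⟨_, cf_mem h1 hd⟩ (fun c hc => cf_low h2 hd hc)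
    refine ⟨hcf, fun r hr => ?_⟩
    rw [hcf]
    apply le_antisymm
    · exact csInf_le ⟨1 - wt d, fun c hc => mu_low h2 hd hc⟩ (mu_mem h1 hd hr)
    · exact le_csInf ⟨_, mu_mem h1 hd hr⟩ (fun c hc => mu_low h2 hd hc)
  refine ⟨main _ (fun _ _ h => h) ?_, main⟩
  intro n s t _ v a b c ha hb hc hab hac hbc
  rcases ha.2 with h1 | h1 <;> rcases hb.2 with h2 | h2 <;> rcases hc.2 with h3 | h3
  · exact Or.inl ⟨hab, Or.inl (h1.symm.trans h2)⟩
  · exact Or.inl ⟨hab, Or.inl (h1.symm.trans h2)⟩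
  · exact Or.inr (Or.inl ⟨hac, Or.inl (h1.symm.trans h3)⟩)
  · exact Or.inr (Or.inr ⟨hbc, Or.inr (h2.symm.trans h3)⟩)
  · exact Or.inr (Or.inr ⟨hbc, Or.inl (h2.symm.trans h3)⟩)
  · exact Or.inr (Or.inl ⟨hac, Or.inr (h1.symm.trans h3)⟩)
  · exact Or.inl ⟨hab, Or.inr (h1.symm.trans h2)⟩
  · exact Or.inl ⟨hab, Or.inr (h1.symm.trans h2)⟩

end Pool.Agent.Results.MP_490a5a_co.ClawFree
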