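import Pool.Agent.H64.K4.Up
import Pool.Agent.H64.K4.La
import Pool.Agent.H64.K4.Ls
import Pool.Agent.H64.KD.Up2
import Pool.Agent.H64.KD.L5

/-!
`MP_490a5a_co` inside the class of the graphs without induced `K_{1,4}` in which no edge lies in two triangles: exact values of both
constants and stationarity for every `d ≥ 4`: `d = 4` (value `1/3`, from `r = 7` on), `d = 5` (value `5/12`, from `r = 13` on) and all
`d ≥ 6` (value `1/2`, from `r = 9` on).

`muSet P r d` and `cfSet P d` are the two sets in the frozen statement `S08551` with the additional requirement that the graph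
belongs to the class `P`.
-/

set_option autoImplicit false

namespace Pool.Agent.Results.MP_490a5a_co.KOneFourFree

open Pool.Agent.H67.CF Pool.Agent.H64.K4 Pool.Agent.H64.KD

/-- Let `Q` be the class of the graphs in which no vertex has four pairwise non-adjacent neighbours (`K14`) and no edge lies in two
triangles (`Dia`).  Then `c_f(Q ∩ Γ_4) = μ(K_r, Q ∩ Γ_4) = 1/3` for all `r ≥ 7`, `c_f(Q ∩ Γ_5) = μ(K_r, Q ∩ Γ_5) = 5/12` for all
`r ≥ 13`, and for every `d ≥ 6` `c_f(Q ∩ Γ_d) = μ(K_r, Q ∩ Γ_d) = 1/2` for all `r ≥ 9`. -/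
theorem result :
    (sInf (cfSet (fun _ G => K14 G ∧ Dia G) 4) = 1 / 3 ∧
      ∀ r : ℕ, 7 ≤ r → sInf (muSet (fun _ G => K14 G ∧ Dia G) r 4) = 1 / 3) ∧
    (sInf (cfSet (fun _ G => K14 G ∧ Dia G) 5) = 5 / 12 ∧
      ∀ r : ℕ, 13 ≤ r → sInf (muSet (fun _ G => K14 G ∧ Dia G) r 5) = 5 / 12) ∧
    (∀ d : ℕ, 6 ≤ d → sInf (cfSet (fun _ G => K14 G ∧ Dia G) d) = 1 / 2 ∧
      ∀ r : ℕ, 9 ≤ r → sInf (muSet (fun _ G => K14 G ∧ Dia G) r d) = 1 / 2) := by
  have hC : HasCub (fun _ G => K14 G ∧ Dia G) := fun n s t hinj hs ht => bip_class hinj hs ht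
  have hL : ∀ (n : ℕ) (G : SimpleGraph (Fin n)), (K14 G ∧ Dia G) → LinThree G := fun n G hG =>
    lin_of_k14 hG.1 fun u v a b h1 h2 h3 h4 h5 hab => absurd (hG.2 u v a b h1 h2 h3 h4 h5) hab
  refine ⟨⟨?_, fun r hr => ?_⟩, ⟨?_, fun r hr => ?_⟩, fun d hd => ⟨?_, fun r hr => ?_⟩⟩
  · have hm : (1 : ℝ) / 3 ∈ cfSet (fun _ G => K14 G ∧ Dia G) 4 := by
      have := cf_mem (P := fun _ G => K14 G ∧ Dia G) (fun _ _ h => h) (d := 4) (Or.inl rfl)
      have e : ((4 : ℕ) : ℝ) / 12 = 1 / 3 := by norm_num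
      rwa [e] at this
    exact le_antisymm (csInf_le ⟨1 / 3, fun c hc => cf_low4 hC hc⟩ hm)
      (le_csInf ⟨_, hm⟩ fun c hc => cf_low4 hC hc)
  · have hm : (1 : ℝ) / 3 ∈ muSet (fun _ G => K14 G ∧ Dia G) r 4 := by
      have := mu_mem (P := fun _ G => K14 G ∧ Dia G) (fun _ _ h => h) (d := 4) (r := r)
        (Or.inl rfl) (by omega)
      have e : ((4 : ℕ) : ℝ) / 12 = 1 / 3 := by norm_num
      rwa [e] at this
    exact le_antisymm (csInf_le ⟨1 / 3, fun c hc => mu_low4 hC hc⟩ hm)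
      (le_csInf ⟨_, hm⟩ fun c hc => mu_low4 hC hc)
  · have hm : (5 : ℝ) / 12 ∈ cfSet (fun _ G => K14 G ∧ Dia G) 5 := by
      have := cf_mem2 (P := fun _ G => K14 G ∧ Dia G) hL (d := 5) (by omega)
      have e : 1 - wt 5 = 5 / 12 := by rw [wt5]; norm_num
      rwa [e] at this
    exact le_antisymm (csInf_le ⟨5 / 12, fun c hc => cf_low5 hc⟩ hm)
      (le_csInf ⟨_, hm⟩ fun c hc => cf_low5 hc)
  · have hm : (5 : ℝ) / 12 ∈ muSet (fun _ G => K14 G ∧ Dia G) r 5 := by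
      have := mu_mem2 (P := fun _ G => K14 G ∧ Dia G) hL (d := 5) (r := r) (by omega) (by omega)
      have e : 1 - wt 5 = 5 / 12 := by rw [wt5]; norm_num
      rwa [e] at this
    exact le_antisymm (csInf_le ⟨5 / 12, fun c hc => mu_low5 hc⟩ hm)
      (le_csInf ⟨_, hm⟩ fun c hc => mu_low5 hc)
  · rw [cf_six (P := fun _ G => K14 G ∧ Dia G) (fun _ _ h => h) hd]
    have hm : (1 : ℝ) / 2 ∈ cfSet (fun _ G => K14 G ∧ Dia G) 6 := by
      have := cf_mem (P := fun _ G => K14 G ∧ Dia G) (fun _ _ h => h) (d := 6) (Or.inr rfl)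
      have e : ((6 : ℕ) : ℝ) / 12 = 1 / 2 := by norm_num
      rwa [e] at this
    exact le_antisymm (csInf_le ⟨1 / 2, fun c hc => cf_low6 hc⟩ hm)
      (le_csInf ⟨_, hm⟩ fun c hc => cf_low6 hc)
  · rw [mu_six (P := fun _ G => K14 G ∧ Dia G) (fun _ _ h => h) hd]
    have hm : (1 : ℝ) / 2 ∈ muSet (fun _ G => K14 G ∧ Dia G) r 6 := by
      have := mu_mem (P := fun _ G => K14 G ∧ Dia G) (fun _ _ h => h) (d := 6) (r := r)
        (Or.inr rfl) (by omega)
      have e : ((6 : ℕ) : ℝ) / 12 = 1 / 2 := by norm_num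
      rwa [e] at this
    exact le_antisymm (csInf_le ⟨1 / 2, fun c hc => mu_low6 hc⟩ hm)
      (le_csInf ⟨_, hm⟩ fun c hc => mu_low6 hc)

end Pool.Agent.Results.MP_490a5a_co.KOneFourFree
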