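import Pool.Agent.H64.KD.Up2
import Pool.Agent.H67.CF.Fl

/-!
`MP_490a5a_co` for line graphs of linear hypergraphs of rank at most 3, every `d ≥ 4`: both constants are equal to
`1 - 1/(⌊d/2⌋+1) - 1/(⌊(d+1)/2⌋+1)`, and the deletion constants are stationary from `r = 2d+3` on.

`muSet P r d` and `cfSet P d` are the two sets in the frozen statement `S08551` with the additional requirement that the graph
belongs to the class `P`.
-/

set_option autoImplicit false

namespace Pool.Agent.Results.MP_490a5a_co.RankThreeLineGraphs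

open Pool.Agent.H67.CF Pool.Agent.H64.K4 Pool.Agent.H64.KD

/-- For every `d ≥ 4` and every class `P` of line graphs of linear hypergraphs of rank at most 3 (`LinThree`) which contains all
line graphs of bipartite graphs (`HasBipLine`): `c_f(P ∩ Γ_d) = μ(K_r, P ∩ Γ_d) = 1 - 1/(⌊d/2⌋+1) - 1/(⌊(d+1)/2⌋+1)` for all
`r ≥ 2d+3`.  In particular this holds for the class of the graphs without induced `K_{1,4}` (`K14`) and without induced diamond
(`DiaI`). -/
theorem result : ∀ d : ℕ, 4 ≤ d →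
    (∀ P : (n : ℕ) → SimpleGraph (Fin n) → Prop, (∀ n G, P n G → LinThree G) → HasBipLine P →
      sInf (cfSet P d) =
          1 - (1 / (((d / 2 : ℕ) : ℝ) + 1) + 1 / ((((d + 1) / 2 : ℕ) : ℝ) + 1)) ∧
        ∀ r : ℕ, 2 * d + 3 ≤ r → sInf (muSet P r d) = sInf (cfSet P d)) ∧
    (sInf (cfSet (fun _ G => K14 G ∧ DiaI G) d) =
        1 - (1 / (((d / 2 : ℕ) : ℝ) + 1) + 1 / ((((d + 1) / 2 : ℕ) : ℝ) + 1)) ∧
      ∀ r : ℕ, 2 * d + 3 ≤ r →
        sInf (muSet (fun _ G => K14 G ∧ DiaI G) r d) =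
          sInf (cfSet (fun _ G => K14 G ∧ DiaI G) d)) := by
  intro d hd
  have main : ∀ P : (n : ℕ) → SimpleGraph (Fin n) → Prop, (∀ n G, P n G → LinThree G) →
      HasBipLine P →
      sInf (cfSet P d) =
          1 - (1 / (((d / 2 : ℕ) : ℝ) + 1) + 1 / ((((d + 1) / 2 : ℕ) : ℝ) + 1)) ∧
        ∀ r : ℕ, 2 * d + 3 ≤ r → sInf (muSet P r d) = sInf (cfSet P d) := by
    intro P h1 h2
    have hd2 : 2 ≤ d := by omega
    have hcf : sInf (cfSet P d) = 1 - wt d := by
      apply le_antisymm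
      · exact csInf_le ⟨1 - wt d, fun c hc => cf_low h2 hd2 hc⟩ (cf_mem2 h1 hd)
      · exact le_csInf ⟨_, cf_mem2 h1 hd⟩ (fun c hc => cf_low h2 hd2 hc)
    refine ⟨hcf, fun r hr => ?_⟩
    rw [hcf]
    apply le_antisymm
    · exact csInf_le ⟨1 - wt d, fun c hc => mu_low h2 hd2 hc⟩ (mu_mem2 h1 hd hr)
    · exact le_csInf ⟨_, mu_mem2 h1 hd hr⟩ (fun c hc => mu_low h2 hd2 hc)
  exact ⟨main, main _ (fun n G hG => lin_of_k14 hG.1 hG.2)
    (fun n s t hinj => bip_class2 hinj)⟩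

end Pool.Agent.Results.MP_490a5a_co.RankThreeLineGraphs
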